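import Pool.Agent.N566.VV.Defs

/-!
# Project VV (helper566), task 11: rational Vassiliev invariants determine the values
-/

set_option autoImplicit false

namespace Pool.Agent.N521.VV

open Pool.Agent.H835R2.Knot
open Pool.Agent.H550R3.Jones (br brf Adm)
open Pool.Agent.N566.VV (datJ val S_INV S_OK S_DIFF S_DV S_VAS)
open Finset Filter Topology Asymptotics

/-- removable singularity -/
theorem rem (F : ℂ → ℂ) (hd : ∀ᶠ h in 𝓝[≠] (0 : ℂ), DifferentiableAt ℂ F h)
    (hb : F =O[𝓝[≠] 0] fun _ => (1 : ℂ)) :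
    ∃ G : ℂ → ℂ, AnalyticAt ℂ G 0 ∧ ∀ᶠ h in 𝓝[≠] (0 : ℂ), G h = F h := by
  have hb2 : (fun z => F z - F 0) =O[𝓝[≠] 0] fun _ => (1 : ℂ) :=
    hb.sub (isBigO_const_const _ one_ne_zero _)
  have h1 := Complex.tendsto_limUnder_of_differentiable_on_punctured_nhds_of_bounded_under hd
    ((isBigO_one_iff ℂ).1 hb2)
  set L := limUnder (𝓝[≠] (0 : ℂ)) F with hL
  have hupd : ∀ h : ℂ, h ≠ 0 → Function.update F 0 L =ᶠ[𝓝 h] F := by
    intro h hh
    filter_upwards [isOpen_ne.mem_nhds hh] with z hz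
    exact Function.update_of_ne hz _ _
  refine ⟨Function.update F 0 L, ?_, ?_⟩
  · refine Complex.analyticAt_of_differentiable_on_punctured_nhds_of_continuousAt ?_ ?_
    · filter_upwards [hd, self_mem_nhdsWithin] with h hh hh0
      exact (hupd h hh0).differentiableAt_iff.2 hh
    · exact continuousAt_update_same.2 h1
  · filter_upwards [self_mem_nhdsWithin] with h hh
    exact Function.update_of_ne hh _ _

/-- equality near the point from equality off the point -/
theorem punct {f g : ℂ → ℂ} (hf : AnalyticAt ℂ f 0) (hg : AnalyticAt ℂ g 0)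
    (h : ∀ᶠ z in 𝓝[≠] (0 : ℂ), f z = g z) : f =ᶠ[𝓝 0] g :=
  (hf.frequently_eq_iff_eventually_eq hg).1 h.frequently

/-- small analytic functions have vanishing derivatives -/
theorem vanish {H : ℂ → ℂ} (hH : AnalyticAt ℂ H 0) (n : ℕ) (hO : H =O[𝓝[≠] 0] fun h => h ^ n) :
    ∀ i < n, iteratedDeriv i H 0 = 0 := by
  rw [← natCast_le_analyticOrderAt_iff_iteratedDeriv_eq_zero hH,
    natCast_le_analyticOrderAt hH]
  have hd : ∀ᶠ h in 𝓝[≠] (0 : ℂ), DifferentiableAt ℂ (fun z => H z / z ^ n) h := by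
    have h1 : ∀ᶠ h in 𝓝[≠] (0 : ℂ), DifferentiableAt ℂ H h :=
      nhdsWithin_le_nhds (hH.eventually_analyticAt.mono fun z hz => hz.differentiableAt)
    filter_upwards [h1, self_mem_nhdsWithin] with z hz hz0
    exact hz.div (differentiableAt_id.pow n) (pow_ne_zero n hz0)
  have hb : (fun z => H z / z ^ n) =O[𝓝[≠] 0] fun _ => (1 : ℂ) := by
    have h1 := hO.mul (isBigO_refl (fun z : ℂ => (z ^ n)⁻¹) (𝓝[≠] 0))
    refine (h1.congr' (Eventually.of_forall fun z => (div_eq_mul_inv _ _).symm) ?_)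
    · filter_upwards [self_mem_nhdsWithin] with z hz
      exact mul_inv_cancel₀ (pow_ne_zero n hz)
  obtain ⟨G, hG, hGe⟩ := rem _ hd hb
  refine ⟨G, hG, ?_⟩
  have h2 : AnalyticAt ℂ (fun z : ℂ => (z - 0) ^ n • G z) 0 :=
    ((analyticAt_id.sub analyticAt_const).pow n).smul hG
  refine punct hH h2 ?_
  filter_upwards [hGe, self_mem_nhdsWithin] with z hz hz0
  rw [hz, sub_zero, smul_eq_mul, mul_div_cancel₀ _ (pow_ne_zero n hz0)]

/-- the exceptional set is finite -/
theorem adm_fin (N : ℕ) : {v : ℂ | ¬ Adm N v}.Finite := by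
  have h1 : {v : ℂ | ¬ Adm N v} ⊆ {0} ∪ ⋃ k ∈ Finset.Ioo 0 N, {v : ℂ | v ^ (2 * k) = 1} := by
    intro v hv
    rw [Set.mem_ofPred_eq] at hv
    unfold Adm at hv
    rcases eq_or_ne v 0 with h0 | h0
    · exact Or.inl h0
    · right
      have h2 : ¬ ∀ k : ℕ, 0 < k → k < N → br v k ≠ 0 := fun h => hv ⟨h0, h⟩
      push Not at h2
      obtain ⟨k, hk, hkN, hb⟩ := h2
      refine Set.mem_biUnion (x := k) (Finset.mem_coe.2 (Finset.mem_Ioo.2 ⟨hk, hkN⟩)) ?_
      unfold br at hb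
      rw [zpow_neg, zpow_natCast] at hb
      have h3 : v ^ k ≠ 0 := pow_ne_zero k h0
      rw [Set.mem_ofPred_eq, two_mul, pow_add]
      have h4 : v ^ k = (v ^ k)⁻¹ := sub_eq_zero.1 hb
      calc v ^ k * v ^ k = v ^ k * (v ^ k)⁻¹ := by rw [← h4]
        _ = 1 := mul_inv_cancel₀ h3
  refine Set.Finite.subset ((Set.finite_singleton 0).union ?_) h1
  refine Set.Finite.biUnion (Finset.finite_toSet _) fun k hk => ?_
  rw [Finset.mem_coe, Finset.mem_Ioo] at hk
  have hk2 : 0 < 2 * k := by omega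
  refine (Finset.finite_toSet (Polynomial.nthRoots (2 * k) (1 : ℂ)).toFinset).subset ?_
  intro v hv
  rw [Finset.mem_coe, Multiset.mem_toFinset, Polynomial.mem_nthRoots hk2]
  exact hv

theorem adm_open (N : ℕ) : IsOpen {v : ℂ | Adm N v} := by
  have h := (adm_fin N).isClosed.isOpen_compl
  have e : {v : ℂ | ¬ Adm N v}ᶜ = {v : ℂ | Adm N v} := by
    ext v
    simp
  rwa [e] at h

theorem adm_conn (N : ℕ) : IsPreconnected {v : ℂ | Adm N v} := by
  have e : {v : ℂ | ¬ Adm N v}ᶜ = {v : ℂ | Adm N v} := by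
    ext v
    simp
  rw [← e]
  refine ((adm_fin N).countable.isConnected_compl_of_one_lt_rank ?_).isPreconnected
  rw [Complex.rank_real_complex]
  exact Nat.one_lt_ofNat

theorem adm_exp (N : ℕ) : ∀ᶠ h in 𝓝[≠] (0 : ℂ), Adm N (Complex.exp h) := by
  -- the exceptional set without `1` is closed
  have h1 : IsOpen ({v : ℂ | ¬ Adm N v} \ {1})ᶜ :=
    ((adm_fin N).subset Set.sdiff_subset).isClosed.isOpen_compl
  have h2 : ({v : ℂ | ¬ Adm N v} \ {1})ᶜ ∈ 𝓝 (Complex.exp 0) := by
    refine h1.mem_nhds ?_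
    rw [Complex.exp_zero]
    intro h
    exact h.2 rfl
  have h3 : ∀ᶠ h in 𝓝[≠] (0 : ℂ), Complex.exp h ∈ ({v : ℂ | ¬ Adm N v} \ {1})ᶜ :=
    nhdsWithin_le_nhds (Complex.continuous_exp.continuousAt.eventually h2)
  have h4 : ∀ᶠ h in 𝓝[≠] (0 : ℂ), Complex.exp h ≠ 1 := by
    have h5 := (Complex.hasDerivAt_exp 0).eventually_ne (c := (1 : ℂ)) (Complex.exp_ne_zero 0)
    exact h5
  filter_upwards [h3, h4] with h a b
  by_contra hc
  exact a ⟨hc, b⟩

theorem switchAt_empty (D : Word) : switchAt ∅ D = D := by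
  unfold switchAt
  exact List.ext_getElem (by simp) (fun i h1 h2 => by simp)

/-- **Task 11.** -/
theorem s_vas (h1 : S_INV) (h2 : S_OK) (h3 : S_DIFF) (h4 : S_DV) : S_VAS := by
  intro D E hD hE hw N hN v hv σ
  -- the functions near `0`
  have hG : ∀ W : Word, ∃ G : ℂ → ℂ, AnalyticAt ℂ G 0 ∧
      ∀ᶠ h in 𝓝[≠] (0 : ℂ), G h = val (datJ N (Complex.exp h)) W σ := by
    intro W
    refine rem _ ?_ ?_
    · filter_upwards [adm_exp N] with h hh
      have h5 : DifferentiableAt ℂ (fun v => val (datJ N v) W σ) (Complex.exp h) :=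
        (h3 N hN W σ).differentiableAt ((adm_open N).mem_nhds hh)
      exact h5.comp h Complex.differentiableAt_exp
    · have h5 := h4 N hN W ∅ (Finset.empty_subset _) σ
      simpa [switchAt_empty] using h5
  choose G hGa hGe using hG
  set W : ℕ → Word → ℂ := fun j X => iteratedDeriv j (G X) 0 with hW
  -- invariance
  have hinv : ∀ X Y : Word, Isotopic X Y → G X =ᶠ[𝓝 0] G Y := by
    intro X Y hXY
    refine punct (hGa X) (hGa Y) ?_
    filter_upwards [hGe X, hGe Y, adm_exp N] with h a b c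
    rw [a, b]
    exact h1 (Fin N) (datJ N (Complex.exp h)) (h2 N _ hN c) X Y hXY σ
  -- degree
  have hdeg : ∀ (j : ℕ) (X : Word), ∀ S ⊆ crossingSet X, S.card = j + 1 →
      ∑ T ∈ S.powerset, (-1 : ℤ) ^ T.card • W j (switchAt T X) = 0 := by
    intro j X S hS hc
    set H : ℂ → ℂ := fun h => ∑ T ∈ S.powerset, (-1 : ℂ) ^ T.card * G (switchAt T X) h with hH
    have hHa : AnalyticAt ℂ H 0 := by
      have := Finset.analyticAt_fun_sum S.powerset (f := fun T h => (-1 : ℂ) ^ T.card *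
        G (switchAt T X) h) (c := (0 : ℂ)) (𝕜 := ℂ)
        (fun T _ => analyticAt_const.mul (hGa (switchAt T X)))
      exact this
    have hHO : H =O[𝓝[≠] 0] fun h => h ^ (j + 1) := by
      have h5 := h4 N hN X S hS σ
      rw [hc] at h5
      refine h5.congr' ?_ (Eventually.of_forall fun _ => rfl)
      have h6 : ∀ᶠ h in 𝓝[≠] (0 : ℂ), ∀ T ∈ S.powerset,
          G (switchAt T X) h = val (datJ N (Complex.exp h)) (switchAt T X) σ :=
        (Filter.eventually_all_finset _).2 fun T _ => hGe (switchAt T X)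
      filter_upwards [h6] with h hh
      rw [hH]
      exact Finset.sum_congr rfl fun T hT => by rw [hh T hT]
    have h7 := vanish hHa (j + 1) hHO j (Nat.lt_succ_self j)
    have h8 : iteratedDeriv j H 0 = ∑ T ∈ S.powerset, (-1 : ℂ) ^ T.card * W j (switchAt T X) := by
      have h9 := iteratedDeriv_fun_sum (n := j) (x := (0 : ℂ)) (I := S.powerset)
        (f := fun T h => (-1 : ℂ) ^ T.card * G (switchAt T X) h)
        (fun T _ => (analyticAt_const.mul (hGa (switchAt T X))).contDiffAt)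
      rw [hH, h9]
      exact Finset.sum_congr rfl fun T _ => iteratedDeriv_const_mul_field _ _
    rw [h8] at h7
    rw [← h7]
    refine Finset.sum_congr rfl fun T _ => ?_
    rw [zsmul_eq_mul]
    push_cast
    ring
  -- the Taylor coefficients agree
  have hcoef : ∀ j, W j D = W j E := by
    intro j
    by_contra hne
    have h5 : W j D - W j E ≠ 0 := sub_ne_zero.2 hne
    have h6 : ¬ ∀ φ : Module.Dual ℚ ℂ, φ (W j D - W j E) = 0 := fun h =>
      h5 ((Module.forall_dual_apply_eq_zero_iff ℚ _).1 h)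
    push Not at h6
    obtain ⟨φ, hφ⟩ := h6
    have h7 := hw j (fun X => φ (W j X)) ?_ ?_
    · apply hφ
      rw [map_sub, h7, sub_self]
    · intro X Y _ hXY
      have h8 : W j X = W j Y := (hinv X Y hXY).iteratedDeriv_eq j
      simp only [h8]
    · intro X _ S hS hc
      have h8 := hdeg j X S hS hc
      have h9 := congrArg φ h8
      rw [map_sum, map_zero] at h9
      rw [← h9]
      exact Finset.sum_congr rfl fun T _ => (map_zsmul φ _ _).symm
  -- the functions agree near `0`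
  have hGG : ∀ᶠ h in 𝓝 (0 : ℂ), G D h - G E h = 0 := by
    have ha : AnalyticAt ℂ (fun h => G D h - G E h) 0 := (hGa D).sub (hGa E)
    rw [← analyticOrderAt_eq_top, ENat.eq_top_iff_forall_ge]
    intro m
    rw [natCast_le_analyticOrderAt_iff_iteratedDeriv_eq_zero ha]
    intro i _
    rw [iteratedDeriv_fun_sub (hGa D).contDiffAt (hGa E).contDiffAt]
    exact sub_eq_zero.2 (hcoef i)
  have hFF : ∀ᶠ h in 𝓝[≠] (0 : ℂ), Adm N (Complex.exp h) ∧
      val (datJ N (Complex.exp h)) D σ = val (datJ N (Complex.exp h)) E σ := by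
    filter_upwards [nhdsWithin_le_nhds hGG, hGe D, hGe E, adm_exp N] with h a b c d
    refine ⟨d, ?_⟩
    rw [← b, ← c]
    exact sub_eq_zero.1 a
  obtain ⟨h₀, hh₀, hne⟩ := ((eventually_eventually_nhdsWithin.2 hFF).and
    self_mem_nhdsWithin).exists
  have hop : 𝓝[≠] (0 : ℂ) = 𝓝[{0}ᶜ] (0 : ℂ) := rfl
  have hnh : 𝓝[{0}ᶜ] h₀ = 𝓝 h₀ := isOpen_compl_singleton.nhdsWithin_eq hne
  rw [hnh] at hh₀
  have hadm : Adm N (Complex.exp h₀) := hh₀.self_of_nhds.1
  have hev : (fun v => val (datJ N v) D σ) =ᶠ[𝓝 (Complex.exp h₀)]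
      fun v => val (datJ N v) E σ := by
    rw [← (Complex.hasStrictDerivAt_exp h₀).map_nhds_eq (Complex.exp_ne_zero h₀)]
    exact hh₀.mono fun h hh => hh.2
  have hfin := ((h3 N hN D σ).analyticOnNhd (adm_open N)).eqOn_of_preconnected_of_eventuallyEq
    ((h3 N hN E σ).analyticOnNhd (adm_open N)) (adm_conn N) hadm hev
  exact hfin hv

end Pool.Agent.N521.VV
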